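import Pool.Agent.NL.StmtsM

/-!
# AVG: averages of approximately continuous functions
-/

set_option autoImplicit false

open MeasureTheory Filter Topology

noncomputable section

namespace Pool.Agent.NL.H90

open Pool.Agent.NL

theorem avg (hM : MrkStmt) : AvgStmt := by
  intro h C hm hC w c hd
  have h1 := (hM h C hm hC w c).2 hd
  have h2 : Tendsto (fun n : ℕ => (1 / 2 : ℝ) * (((n : ℝ) + 1) * ∫ x in nb n w, |h x - c|)) atTop
      (𝓝 0) := by
    simpa using h1.const_mul (1 / 2 : ℝ)
  rw [tendsto_iff_norm_sub_tendsto_zero]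
  refine squeeze_zero (fun n => norm_nonneg _) (fun n => ?_) h2
  have hn : (0 : ℝ) < (n : ℝ) + 1 := by positivity
  have hfin : volume (nb n w) ≠ ⊤ := by
    simp [nb]
  have hI : IntegrableOn h (nb n w) := by
    refine Measure.integrableOn_of_bounded hfin hm.aestronglyMeasurable (M := C) ?_
    exact ae_of_all _ fun x => hC x
  have hvol : (volume (nb n w)).toReal = 2 / ((n : ℝ) + 1) := by
    simp only [nb, Real.volume_Icc]
    rw [ENNReal.toReal_ofReal]
    · field_simp
      ring
    · have : 0 < 1 / ((n : ℝ) + 1) := by positivity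
      linarith
  have hconst : ∫ _ in nb n w, c = 2 / ((n : ℝ) + 1) * c := by
    rw [setIntegral_const, smul_eq_mul, Measure.real, hvol]
  have hsub : ((n : ℝ) + 1) / 2 * (∫ x in nb n w, h x) - c =
      ((n : ℝ) + 1) / 2 * ∫ x in nb n w, (h x - c) := by
    rw [integral_sub hI (integrableOn_const hfin), hconst]
    field_simp
  rw [hsub, Real.norm_eq_abs, abs_mul, abs_of_pos (by positivity)]
  have h3 : |∫ x in nb n w, (h x - c)| ≤ ∫ x in nb n w, |h x - c| := by
    have := norm_integral_le_integral_norm (μ := volume.restrict (nb n w)) (fun x : ℝ => h x - c)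
    simpa only [Real.norm_eq_abs] using this
  calc ((n : ℝ) + 1) / 2 * |∫ x in nb n w, (h x - c)|
      ≤ ((n : ℝ) + 1) / 2 * ∫ x in nb n w, |h x - c| := by gcongr
    _ = 1 / 2 * (((n : ℝ) + 1) * ∫ x in nb n w, |h x - c|) := by ring

end Pool.Agent.NL.H90
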